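import Pool.Agent.Run7.h951.BG.Stm

/-!
# Project BG (helper951), piece LAPP: the Laplacian in polar coordinates, pointwise
-/

set_option autoImplicit false

open MeasureTheory Filter Topology

namespace Pool.Agent.Run7.h305.BG

noncomputable section

/-- the trace of a bilinear form on `ℂ` in the orthonormal basis `e, i e` -/
theorem trace_rot (B : ℂ →L[ℝ] ℂ →L[ℝ] ℝ) (c s : ℝ) (h : c ^ 2 + s ^ 2 = 1) (e : ℂ)
    (he : e = c + s * Complex.I) :
    B e e + B (Complex.I * e) (Complex.I * e) = B 1 1 + B Complex.I Complex.I := by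
  have h1 : e = c • (1 : ℂ) + s • Complex.I := by
    rw [he]; simp
  have h2 : Complex.I * e = (-s) • (1 : ℂ) + c • Complex.I := by
    rw [he]
    simp only [Complex.real_smul, Complex.ofReal_neg]
    linear_combination (s : ℂ) * Complex.I_mul_I
  rw [h2, h1]
  simp only [map_add, map_smul, _root_.add_apply, FunLike.coe_smul, Pi.smul_apply, smul_eq_mul]
  linear_combination (B 1 1 + B Complex.I Complex.I) * h

theorem t_LAPP : Pool.Agent.Run7.h951.BG.S_LAPP := by
  intro φ hφ r θ hr
  set e : ℂ := Complex.exp (θ * Complex.I) with he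
  have hd : Differentiable ℝ (fderiv ℝ φ) := by
    have h1 : ContDiff ℝ 1 (fderiv ℝ φ) := hφ.fderiv_right (by norm_cast)
    exact h1.differentiable (by norm_num)
  set z : ℂ := r * e with hz
  set B := fderiv ℝ (fderiv ℝ φ) z with hB
  have hBd : HasFDerivAt (fderiv ℝ φ) B z := (hd z).hasFDerivAt
  -- the radial derivative
  have ha : HasDerivAt (fun t : ℝ => fderiv ℝ φ (t * e) (t * e)) (B e z + fderiv ℝ φ z e) r := by
    have h1 : HasDerivAt (fun t : ℝ => (t : ℂ) * e) e r := by
      simpa using (Complex.ofRealCLM.hasDerivAt (x := r)).mul_const e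
    have h2 : HasDerivAt (fun t : ℝ => fderiv ℝ φ ((t : ℂ) * e)) (B e) r :=
      HasFDerivAt.comp_hasDerivAt r hBd h1
    exact h2.clm_apply h1
  -- the angular derivative
  have hb : HasDerivAt (fun t : ℝ => fderiv ℝ φ (r * Complex.exp (t * Complex.I))
      (Complex.I * (r * Complex.exp (t * Complex.I))))
      (B (Complex.I * z) (Complex.I * z) + fderiv ℝ φ z (Complex.I * (Complex.I * z))) θ := by
    have h0 : HasDerivAt (fun t : ℝ => (t : ℂ) * Complex.I) Complex.I θ := by
      simpa using (Complex.ofRealCLM.hasDerivAt (x := θ)).mul_const Complex.I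
    have h1 : HasDerivAt (fun t : ℝ => (r : ℂ) * Complex.exp (t * Complex.I)) (Complex.I * z) θ := by
      have h2 := (h0.cexp).const_mul (r : ℂ)
      have h3 : (r : ℂ) * (Complex.exp (θ * Complex.I) * Complex.I) = Complex.I * z := by
        rw [hz, he]; ring
      rw [h3] at h2
      exact h2
    have h2 : HasDerivAt (fun t : ℝ => fderiv ℝ φ ((r : ℂ) * Complex.exp (t * Complex.I)))
        (B (Complex.I * z)) θ :=
      HasFDerivAt.comp_hasDerivAt θ hBd h1
    exact h2.clm_apply (h1.const_mul Complex.I)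
  refine ⟨_, _, ha, hb, ?_⟩
  rw [InnerProductSpace.laplacian_eq_iteratedFDeriv_complexPlane]
  simp only [iteratedFDeriv_two_apply, Matrix.cons_val_zero, Matrix.cons_val_one]
  rw [← hB]
  have h1 := trace_rot B (Real.cos θ) (Real.sin θ) (Real.cos_sq_add_sin_sq θ) e (by
    rw [he, Complex.exp_mul_I]; simp)
  have hz' : z = r • e := by rw [hz, Complex.real_smul]
  have h2 : Complex.I * z = r • (Complex.I * e) := by
    rw [hz, Complex.real_smul]; ring
  have h3 : Complex.I * (Complex.I * z) = (-r) • e := by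
    rw [hz, Complex.real_smul, Complex.ofReal_neg]
    linear_combination (r * e : ℂ) * Complex.I_mul_I
  rw [h3, h2, ← h1]
  have h4 : B e z = r * B e e := by rw [hz', map_smul, smul_eq_mul]
  rw [h4]
  simp only [map_smul, FunLike.coe_smul, Pi.smul_apply, smul_eq_mul]
  field_simp
  ring

end

end Pool.Agent.Run7.h305.BG
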